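import Pool.Agent.Y544.AD.Dfn

/-!
# The ring of the frozen statement
-/

set_option autoImplicit false

namespace Pool.Agent.Y544.AD

open Metric Set Filter Pool.Agent.Y544.HD

/-- the functions which are analytic on the disc, and constant outside -/
abbrev G0 : Set (ℂ → ℂ) := {g : ℂ → ℂ | DifferentiableOn ℂ g (Metric.ball (0:ℂ) 1) ∧
  ∀ z ∉ Metric.ball (0:ℂ) 1, g z = g 0}

theorem mem_closure_G0 {f : ℂ → ℂ} (hf : f ∈ Subring.closure G0) : f ∈ G0 := by
  induction hf using Subring.closure_induction with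
  | mem f h => exact h
  | zero => exact ⟨differentiableOn_const _, fun _ _ => rfl⟩
  | one => exact ⟨differentiableOn_const _, fun _ _ => rfl⟩
  | add f g _ _ h1 h2 => exact ⟨h1.1.add h2.1, fun z hz => by
      rw [Pi.add_apply, Pi.add_apply, h1.2 z hz, h2.2 z hz]⟩
  | neg f _ h1 => exact ⟨h1.1.neg, fun z hz => by
      rw [Pi.neg_apply, Pi.neg_apply, h1.2 z hz]⟩
  | mul f g _ _ h1 h2 => exact ⟨h1.1.mul h2.1, fun z hz => by
      rw [Pi.mul_apply, Pi.mul_apply, h1.2 z hz, h2.2 z hz]⟩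

/-- the ring of the analytic functions on the disc -/
def HD : Subring (ball (0 : ℂ) 1 → ℂ) where
  carrier := {f | ∃ g : ℂ → ℂ, DifferentiableOn ℂ g (ball (0 : ℂ) 1) ∧
    ∀ z : ball (0 : ℂ) 1, f z = g z}
  mul_mem' := by
    rintro f g ⟨F, hF, hf⟩ ⟨G, hG, hg⟩
    exact ⟨F * G, hF.mul hG, fun z => by rw [Pi.mul_apply, Pi.mul_apply, hf, hg]⟩
  one_mem' := ⟨fun _ => 1, differentiableOn_const _, fun _ => rfl⟩
  add_mem' := by
    rintro f g ⟨F, hF, hf⟩ ⟨G, hG, hg⟩
    exact ⟨F + G, hF.add hG, fun z => by rw [Pi.add_apply, Pi.add_apply, hf, hg]⟩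
  zero_mem' := ⟨fun _ => 0, differentiableOn_const _, fun _ => rfl⟩
  neg_mem' := by
    rintro f ⟨F, hF, hf⟩
    exact ⟨-F, hF.neg, fun z => by rw [Pi.neg_apply, Pi.neg_apply, hf]⟩

theorem hol_HD : Hol HD := by
  intro f
  constructor
  · rintro ⟨g, hg, h⟩
    exact ⟨g, hg.analyticOnNhd isOpen_ball, h⟩
  · rintro ⟨g, hg, h⟩
    exact ⟨g, hg.differentiableOn, h⟩

/-- the restriction to the disc -/
def res : Subring.closure G0 →+* HD where
  toFun f := ⟨fun z => f.1 z, f.1, (mem_closure_G0 f.2).1, fun _ => rfl⟩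
  map_one' := rfl
  map_mul' _ _ := rfl
  map_zero' := rfl
  map_add' _ _ := rfl

theorem res_bijective : Function.Bijective res := by
  have h0 : (0 : ℂ) ∈ ball (0 : ℂ) 1 := mem_ball_self one_pos
  constructor
  · intro f g hfg
    have h1 : ∀ z ∈ ball (0 : ℂ) 1, f.1 z = g.1 z := fun z hz =>
      congrFun (congrArg Subtype.val hfg) (⟨z, hz⟩ : ball (0 : ℂ) 1)
    refine Subtype.ext (funext fun z => ?_)
    by_cases hz : z ∈ ball (0 : ℂ) 1
    · exact h1 z hz
    · rw [(mem_closure_G0 f.2).2 z hz, (mem_closure_G0 g.2).2 z hz, h1 0 h0]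
  · rintro ⟨f, g, hg, hf⟩
    classical
    have h1 : (fun z => if z ∈ ball (0 : ℂ) 1 then g z else g 0) ∈ G0 := by
      constructor
      · refine hg.congr fun z hz => ?_
        simp only [if_pos hz]
      · intro z hz
        simp only [if_neg hz, if_pos h0]
    refine ⟨⟨_, Subring.subset_closure h1⟩, Subtype.ext (funext fun z => ?_)⟩
    show (if z.1 ∈ ball (0 : ℂ) 1 then g z else g 0) = f z
    rw [if_pos z.2, hf]

/-- the isomorphism -/
noncomputable def iso : Subring.closure G0 ≃+* HD := RingEquiv.ofBijective res res_bijective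

theorem na_closure (f : Subring.closure G0) : NA f ↔
    Asymptotics.IsBigO (nhdsWithin (1:ℝ) (Set.Iio 1))
      (fun r : ℝ => (2 * Real.pi)⁻¹ * ∫ θ in (0:ℝ)..(2 * Real.pi),
        Real.posLog ‖(f : ℂ → ℂ) ((r : ℂ) * Complex.exp ((θ : ℂ) * Complex.I))‖)
      (fun r : ℝ => Real.log (1 - r)⁻¹) := by
  rw [← na_equiv iso f, na_iff hol_HD (mem_closure_G0 f.2).1 fun _ => rfl]
  have h1 : T f.1 = fun r : ℝ => (2 * Real.pi)⁻¹ * ∫ θ in (0:ℝ)..(2 * Real.pi),
      Real.posLog ‖(f : ℂ → ℂ) ((r : ℂ) * Complex.exp ((θ : ℂ) * Complex.I))‖ := by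
    funext r
    unfold T
    rw [Real.circleAverage_def, smul_eq_mul]
    simp only [circleMap, zero_add]
  rw [h1]

end Pool.Agent.Y544.AD
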