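import Pool.Agent.Y544.AD.Harm

/-!
# The characteristic and the majorants without zeros
-/

set_option autoImplicit false

namespace Pool.Agent.Y544.AD

open Metric Set Filter InnerProductSpace

/-- the characteristic of Nevanlinna -/
noncomputable def T (F : ℂ → ℂ) (r : ℝ) : ℝ := Real.circleAverage (fun z => Real.posLog ‖F z‖) 0 r

theorem sub_sphere {r : ℝ} (h0 : 0 ≤ r) (h1 : r < 1) : sphere (0 : ℂ) |r| ⊆ ball (0 : ℂ) 1 := by
  rw [abs_of_nonneg h0]
  exact sphere_subset_closedBall.trans (closedBall_subset_ball h1)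

theorem cont_posLog {F : ℂ → ℂ} (hF : DifferentiableOn ℂ F (ball 0 1)) {s : Set ℂ}
    (hs : s ⊆ ball 0 1) : ContinuousOn (fun z => Real.posLog ‖F z‖) s :=
  Real.continuous_posLog.comp_continuousOn (hF.continuousOn.mono hs).norm

theorem T_nonneg (F : ℂ → ℂ) (r : ℝ) : 0 ≤ T F r :=
  Real.circleAverage_nonneg_of_nonneg fun _ _ => Real.posLog_nonneg

/-- a self-map of the disc does not come near the circle too fast -/
theorem selfmap_le {U : ℂ → ℂ} (hU : DifferentiableOn ℂ U (ball 0 1))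
    (hm : ∀ z ∈ ball (0 : ℂ) 1, ‖U z‖ < 1) :
    ∃ κ : ℝ, 0 < κ ∧ κ ≤ 1 / 4 ∧ ∀ z ∈ ball (0 : ℂ) 1, κ * (1 - ‖z‖) ≤ 1 - ‖U z‖ := by
  have h0 : (0 : ℂ) ∈ ball (0 : ℂ) 1 := mem_ball_self one_pos
  have hU0 := hm 0 h0
  refine ⟨(1 - ‖U 0‖) / 4, by linarith, by linarith [norm_nonneg (U 0)], fun z hz => ?_⟩
  have hz1 : ‖z‖ < 1 := mem_ball_zero_iff.1 hz
  obtain ⟨ω, hω, hωz⟩ : ∃ ω : ℂ, ‖ω‖ = 1 ∧ (ω * U z).re = ‖U z‖ := by
    by_cases h : U z = 0
    · exact ⟨1, norm_one, by rw [h]; simp⟩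
    · have hn : (‖U z‖ : ℂ) ≠ 0 := Complex.ofReal_ne_zero.2 (norm_ne_zero_iff.2 h)
      refine ⟨(starRingEnd ℂ) (U z) / ‖U z‖, ?_, ?_⟩
      · rw [norm_div, Complex.norm_conj, Complex.norm_real, Real.norm_of_nonneg (norm_nonneg _),
          div_self (norm_ne_zero_iff.2 h)]
      · have h1 : (starRingEnd ℂ) (U z) / ‖U z‖ * U z = (‖U z‖ : ℂ) := by
          rw [div_mul_eq_mul_div, mul_comm ((starRingEnd ℂ) (U z)), Complex.mul_conj',
            div_eq_iff hn, sq]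
        rw [h1, Complex.ofReal_re]
  have hd : DifferentiableOn ℂ (fun x => 1 - ω * U x) (ball 0 1) := (hU.const_mul ω).const_sub 1
  have hva : ∀ x ∈ ball (0 : ℂ) 1, HarmonicAt (fun x => (1 - ω * U x).re) x := fun x hx =>
    AnalyticAt.harmonicAt_re (hd.analyticAt (isOpen_ball.mem_nhds hx))
  obtain ⟨R, hR⟩ : ∃ R : ℝ, R = (1 + ‖z‖) / 2 := ⟨_, rfl⟩
  have hR1 : R < 1 := by rw [hR]; linarith
  have hRz : ‖z‖ < R := by rw [hR]; linarith
  have hR0 : 0 < R := lt_of_le_of_lt (norm_nonneg z) hRz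
  have hhar : HarmonicOnNhd (fun x => (1 - ω * U x).re) (closedBall 0 R) := fun x hx =>
    hva x (closedBall_subset_ball hR1 hx)
  have hre : ∀ x ∈ ball (0 : ℂ) 1, 1 - ‖U x‖ ≤ (1 - ω * U x).re := by
    intro x hx
    have h1 : (ω * U x).re ≤ ‖ω * U x‖ := Complex.re_le_norm _
    rw [norm_mul, hω, one_mul] at h1
    rw [Complex.sub_re, Complex.one_re]
    linarith
  have h1 := harnack hhar
    (Complex.continuous_re.comp_continuousOn (hd.continuousOn.mono (sub_sphere hR0.le hR1)))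
    (fun x hx => by
      have h2 := hre x (sub_sphere hR0.le hR1 hx)
      have h3 := hm x (sub_sphere hR0.le hR1 hx)
      linarith) hRz
  rw [InnerProductSpace.HarmonicOnNhd.circleAverage_eq (by rwa [abs_of_pos hR0])] at h1
  have h2 := hre 0 h0
  have h3 : (1 - ω * U z).re = 1 - ‖U z‖ := by
    rw [Complex.sub_re, Complex.one_re, hωz]
  rw [h3] at h1
  refine le_trans ?_ h1
  have h4 : (1 - ‖z‖) / 4 ≤ (R - ‖z‖) / (R + ‖z‖) := by
    rw [div_le_div_iff₀ (by norm_num) (by linarith [norm_nonneg z])]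
    rw [hR]
    nlinarith [norm_nonneg z]
  calc (1 - ‖U 0‖) / 4 * (1 - ‖z‖) = (1 - ‖z‖) / 4 * (1 - ‖U 0‖) := by ring
    _ ≤ (R - ‖z‖) / (R + ‖z‖) * (1 - ω * U 0).re :=
      mul_le_mul h4 h2 (by linarith) (by
        refine div_nonneg (by linarith) (by linarith [norm_nonneg z]))

/-- the growth of the solutions of the differential equation -/
theorem ode_growth {U H : ℂ → ℂ} (hU : DifferentiableOn ℂ U (ball 0 1))
    (hH : DifferentiableOn ℂ H (ball 0 1)) (hm : ∀ z ∈ ball (0 : ℂ) 1, ‖U z‖ < 1) {α : ℂ}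
    (hode : ∀ z ∈ ball (0 : ℂ) 1, deriv H z * (1 - U z) = α * H z * deriv U z) :
    ∃ K : ℝ, 0 ≤ K ∧ ∀ z ∈ ball (0 : ℂ) 1,
      ‖H z‖ ≤ K * Real.exp (‖α‖ * (1 + Real.log (1 - ‖U z‖)⁻¹ + Real.pi)) := by
  have h0 : (0 : ℂ) ∈ ball (0 : ℂ) 1 := mem_ball_self one_pos
  have hre : ∀ z ∈ ball (0 : ℂ) 1, 0 < (1 - U z).re := by
    intro z hz
    have h1 : (U z).re ≤ ‖U z‖ := Complex.re_le_norm _
    have h2 := hm z hz
    rw [Complex.sub_re, Complex.one_re]
    linarith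
  have hslit : ∀ z ∈ ball (0 : ℂ) 1, 1 - U z ∈ Complex.slitPlane := fun z hz =>
    Or.inl (hre z hz)
  have hk : DifferentiableOn ℂ (fun z => H z * Complex.exp (α * Complex.log (1 - U z)))
      (ball 0 1) := by
    refine hH.mul (DifferentiableOn.cexp ?_)
    exact ((hU.const_sub 1).clog hslit).const_mul α
  have hk' : (ball (0 : ℂ) 1).EqOn (deriv fun z => H z * Complex.exp (α * Complex.log (1 - U z)))
      0 := by
    intro z hz
    have hUz : HasDerivAt U (deriv U z) z :=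
      ((hU z hz).differentiableAt (isOpen_ball.mem_nhds hz)).hasDerivAt
    have hHz : HasDerivAt H (deriv H z) z :=
      ((hH z hz).differentiableAt (isOpen_ball.mem_nhds hz)).hasDerivAt
    have h1 := (((hUz.const_sub 1).clog (hslit z hz)).const_mul α).cexp
    have h2 := hHz.mul h1
    have h3 : deriv (fun z => H z * Complex.exp (α * Complex.log (1 - U z))) z =
        deriv H z * Complex.exp (α * Complex.log (1 - U z)) +
          H z * (Complex.exp (α * Complex.log (1 - U z)) * (α * (-deriv U z / (1 - U z)))) :=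
      h2.deriv
    rw [h3]
    have h4 : (1 - U z) ≠ 0 := Complex.slitPlane_ne_zero (hslit z hz)
    have h5 := hode z hz
    show _ = (0 : ℂ)
    have h6 : deriv H z = α * H z * deriv U z / (1 - U z) := by
      rw [eq_div_iff h4, h5]
    rw [h6]
    field_simp
    ring
  have hconst := fun z hz => IsOpen.is_const_of_deriv_eq_zero isOpen_ball
    (convex_ball (0 : ℂ) 1).isPreconnected hk hk' (x := z) (y := 0) hz h0
  refine ⟨‖H 0 * Complex.exp (α * Complex.log (1 - U 0))‖, norm_nonneg _, fun z hz => ?_⟩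
  have h1 := hconst z hz
  rw [← h1, norm_mul, mul_assoc]
  refine le_mul_of_one_le_right (norm_nonneg _) ?_
  rw [Complex.norm_exp, ← Real.exp_add]
  refine Real.one_le_exp ?_
  have h2 : -(α * Complex.log (1 - U z)).re ≤ ‖α‖ * ‖Complex.log (1 - U z)‖ := by
    rw [← norm_mul, ← Complex.neg_re]
    refine (Complex.re_le_norm _).trans ?_
    rw [norm_neg]
  have h3 : ‖Complex.log (1 - U z)‖ ≤ 1 + Real.log (1 - ‖U z‖)⁻¹ + Real.pi := by
    refine (Complex.norm_le_abs_re_add_abs_im _).trans ?_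
    rw [Complex.log_re, Complex.log_im]
    refine add_le_add ?_ (Complex.abs_arg_le_pi _)
    have h4 : ‖1 - U z‖ ≤ 2 := by
      have h5 := norm_sub_le (1 : ℂ) (U z)
      rw [norm_one] at h5
      have := hm z hz
      linarith
    have h5 : 1 - ‖U z‖ ≤ ‖1 - U z‖ := by
      have h6 := norm_sub_norm_le (1 : ℂ) (U z)
      rwa [norm_one] at h6
    have h6 : 0 < 1 - ‖U z‖ := by
      have := hm z hz
      linarith
    have h7 : Real.log 2 ≤ 1 := by
      have := Real.log_two_lt_d9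
      linarith
    have h8 : 0 ≤ Real.log (1 - ‖U z‖)⁻¹ := by
      refine Real.log_nonneg ?_
      exact (one_le_inv₀ h6).2 (by linarith [norm_nonneg (U z)])
    rw [abs_le]
    constructor
    · have h9 := Real.log_le_log h6 h5
      rw [Real.log_inv]
      linarith
    · have h9 := Real.log_le_log (lt_of_lt_of_le h6 h5) h4
      linarith
  have h4 := mul_le_mul_of_nonneg_left h3 (norm_nonneg α)
  linarith

/-- the main estimate -/
theorem core_fwd {F U H : ℂ → ℂ} (hF : DifferentiableOn ℂ F (ball 0 1))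
    (hU : DifferentiableOn ℂ U (ball 0 1)) (hH : DifferentiableOn ℂ H (ball 0 1))
    (hm : ∀ z ∈ ball (0 : ℂ) 1, ‖U z‖ < 1) {z₀ : ℂ} (hz₀ : z₀ ∈ ball (0 : ℂ) 1) {α : ℂ}
    (hode : ∀ z ∈ ball (0 : ℂ) 1, deriv H z * (1 - U z) = α * H z * deriv U z)
    {r₀ : ℝ} (hr₀ : r₀ < 1)
    (hmain : ∀ ρ : ℝ, r₀ ≤ ρ → 0 < ρ → ρ < 1 → ∃ G : ℂ → ℂ, DifferentiableOn ℂ G (ball 0 1) ∧
      (∀ z ∈ ball (0 : ℂ) 1, G z ≠ 0) ∧
      (∀ z ∈ ball (0 : ℂ) 1, ‖U z‖ ≤ ρ → 1 ≤ ‖G z‖ ∧ ‖F z‖ ≤ ‖G z‖) ∧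
      ∃ z₁ ∈ ball (0 : ℂ) 1, ‖U z₁‖ = ρ ∧ ‖G z₀‖ ≤ ‖H z₁‖) :
    Asymptotics.IsBigO (nhdsWithin (1 : ℝ) (Iio 1)) (T F) (fun r => Real.log (1 - r)⁻¹) := by
  obtain ⟨κ, hκ0, hκ1, hκ⟩ := selfmap_le hU hm
  obtain ⟨K, hK, hKH⟩ := ode_growth hU hH hm hode
  have hz1 : ‖z₀‖ < 1 := mem_ball_zero_iff.1 hz₀
  have hbound : ∀ r : ℝ, r₀ ≤ r → (1 + ‖z₀‖) / 2 ≤ r → r < 1 →
      T F r ≤ 4 / (1 - ‖z₀‖) * (Real.log (K + 1) + ‖α‖ * (1 + (Real.log κ⁻¹ +
        Real.log (1 - r)⁻¹) + Real.pi)) := by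
    intro r hr1 hr2 hr3
    have hr0 : 0 < r := by linarith [norm_nonneg z₀]
    obtain ⟨ρ, hρ⟩ : ∃ ρ : ℝ, ρ = 1 - κ * (1 - r) := ⟨_, rfl⟩
    have hρ1 : ρ < 1 := by
      rw [hρ]
      have : 0 < κ * (1 - r) := mul_pos hκ0 (by linarith)
      linarith
    have hρ2 : r ≤ ρ := by
      rw [hρ]
      nlinarith
    obtain ⟨G, hG, hG0, hGF, z₁, hz₁, hUz₁, hGz⟩ := hmain ρ (hr1.trans hρ2) (by linarith) hρ1
    have hsub : closedBall (0 : ℂ) r ⊆ ball 0 1 := closedBall_subset_ball hr3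
    have hin : ∀ z ∈ closedBall (0 : ℂ) r, 1 ≤ ‖G z‖ ∧ ‖F z‖ ≤ ‖G z‖ := by
      intro z hz
      refine hGF z (hsub hz) ?_
      have h1 := hκ z (hsub hz)
      have h2 : ‖z‖ ≤ r := mem_closedBall_zero_iff.1 hz
      rw [hρ]
      nlinarith
    have hvh : HarmonicOnNhd (fun z => Real.log ‖G z‖) (closedBall 0 r) := fun z hz =>
      AnalyticAt.harmonicAt_log_norm (hG.analyticAt (isOpen_ball.mem_nhds (hsub hz)))
        (hG0 z (hsub hz))
    have hvc : ContinuousOn (fun z => Real.log ‖G z‖) (sphere (0 : ℂ) |r|) :=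
      ContinuousOn.log (hG.continuousOn.mono (sub_sphere hr0.le hr3)).norm fun z hz =>
        norm_ne_zero_iff.2 (hG0 z (sub_sphere hr0.le hr3 hz))
    have hsc : ∀ z ∈ sphere (0 : ℂ) |r|, z ∈ closedBall (0 : ℂ) r := by
      intro z hz
      rw [abs_of_pos hr0] at hz
      exact sphere_subset_closedBall hz
    have h1 : T F r ≤ Real.circleAverage (fun z => Real.log ‖G z‖) 0 r := by
      refine Real.circleAverage_mono (cont_posLog hF (sub_sphere hr0.le hr3)).circleIntegrable'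
        hvc.circleIntegrable' fun z hz => ?_
      obtain ⟨h2, h3⟩ := hin z (hsc z hz)
      have h4 := Real.posLog_le_posLog (norm_nonneg _) h3
      rwa [Real.posLog_eq_log (x := ‖G z‖) (by rwa [abs_of_nonneg (norm_nonneg _)])] at h4
    have h2 := harnack (w := z₀) hvh hvc (fun z hz => Real.log_nonneg (hin z (hsc z hz)).1)
      (by linarith)
    have h3 : Real.log ‖G z₀‖ ≤ Real.log (K + 1) + ‖α‖ * (1 + (Real.log κ⁻¹ +
        Real.log (1 - r)⁻¹) + Real.pi) := by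
      have h4 := hKH z₁ hz₁
      have h5 : 0 < ‖G z₀‖ := norm_pos_iff.2 (hG0 z₀ hz₀)
      have h6 : 1 - ‖U z₁‖ = κ * (1 - r) := by rw [hUz₁, hρ]; ring
      rw [h6, mul_inv, Real.log_mul (inv_ne_zero hκ0.ne') (inv_ne_zero (by linarith))] at h4
      have h7 : ‖G z₀‖ ≤ (K + 1) * Real.exp (‖α‖ * (1 + (Real.log κ⁻¹ +
          Real.log (1 - r)⁻¹) + Real.pi)) := by
        refine hGz.trans (h4.trans ?_)
        exact mul_le_mul_of_nonneg_right (by linarith) (Real.exp_pos _).le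
      have h8 := Real.log_le_log h5 h7
      rwa [Real.log_mul (by linarith) (Real.exp_pos _).ne', Real.log_exp] at h8
    have h4 : (1 - ‖z₀‖) / 4 ≤ (r - ‖z₀‖) / (r + ‖z₀‖) := by
      rw [div_le_div_iff₀ (by norm_num) (by linarith [norm_nonneg z₀])]
      nlinarith [norm_nonneg z₀]
    have h5 : 0 ≤ Real.circleAverage (fun z => Real.log ‖G z‖) 0 r := (T_nonneg F r).trans h1
    have h6 : (1 - ‖z₀‖) / 4 * T F r ≤ Real.log ‖G z₀‖ :=
      (mul_le_mul h4 h1 (T_nonneg F r) (le_trans (by linarith) h4)).trans h2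
    have h7 : T F r = 4 / (1 - ‖z₀‖) * ((1 - ‖z₀‖) / 4 * T F r) := by
      have : (1 - ‖z₀‖) ≠ 0 := by linarith
      field_simp
    rw [h7]
    exact mul_le_mul_of_nonneg_left (h6.trans h3) (by
      refine div_nonneg (by norm_num) (by linarith))
  obtain ⟨A, hA⟩ : ∃ A : ℝ, A = 4 / (1 - ‖z₀‖) * (Real.log (K + 1) + ‖α‖ * (1 + Real.log κ⁻¹ +
    Real.pi)) := ⟨_, rfl⟩
  obtain ⟨B, hB⟩ : ∃ B : ℝ, B = 4 / (1 - ‖z₀‖) * ‖α‖ := ⟨_, rfl⟩
  refine Asymptotics.IsBigO.of_bound (|A| + |B|) ?_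
  have he : 1 - Real.exp (-1) < 1 := by linarith [Real.exp_pos (-1)]
  have hmax : max (max r₀ ((1 + ‖z₀‖) / 2)) (1 - Real.exp (-1)) < 1 := by
    refine max_lt (max_lt hr₀ (by linarith)) he
  filter_upwards [Ioo_mem_nhdsLT hmax] with r hr
  obtain ⟨hr1, hr2⟩ := hr
  have h1 : max r₀ ((1 + ‖z₀‖) / 2) < r := lt_of_le_of_lt (le_max_left _ _) hr1
  have h2 : 1 - Real.exp (-1) < r := lt_of_le_of_lt (le_max_right _ _) hr1
  have h3 := hbound r ((le_max_left _ _).trans h1.le) ((le_max_right _ _).trans h1.le) hr2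
  have h4 : 1 ≤ Real.log (1 - r)⁻¹ := by
    rw [Real.log_inv, le_neg, Real.log_le_iff_le_exp (by linarith)]
    linarith
  rw [Real.norm_of_nonneg (T_nonneg F r), Real.norm_of_nonneg (by linarith)]
  have h5 : T F r ≤ A + B * Real.log (1 - r)⁻¹ := by
    refine h3.trans (le_of_eq ?_)
    rw [hA, hB]
    ring
  have h6 : A ≤ |A| * Real.log (1 - r)⁻¹ := by
    have h7 := le_abs_self A
    have h8 := abs_nonneg A
    nlinarith
  have h7 : B * Real.log (1 - r)⁻¹ ≤ |B| * Real.log (1 - r)⁻¹ :=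
    mul_le_mul_of_nonneg_right (le_abs_self B) (by linarith)
  linarith

/-- a majorant -/
theorem core_bwd {F : ℂ → ℂ} (hF : DifferentiableOn ℂ F (ball 0 1)) {R : ℝ} (hR0 : 0 < R)
    (hR1 : R < 1) :
    ∃ Q : ℂ → ℂ, Differentiable ℂ Q ∧ (Q 0).re ≤ T F R + 1 ∧
      ∀ z : ℂ, ‖z‖ ≤ R → ‖Complex.exp (-Q z)‖ ≤ 1 ∧ ‖F z * Complex.exp (-Q z)‖ ≤ 1 := by
  have hs : sphere (0 : ℂ) R ⊆ ball 0 1 :=
    sphere_subset_closedBall.trans (closedBall_subset_ball hR1)
  have habs : |R| = R := abs_of_pos hR0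
  obtain ⟨Q, hQ, hQv⟩ := exists_entire (v := fun z => Real.posLog ‖F z‖ + 1 / 2) hR0
    ((cont_posLog hF hs).add continuousOn_const) (ε := 1 / 2) (by norm_num)
  refine ⟨Q, hQ, ?_, fun z hz => ?_⟩
  · have h1 : Real.circleAverage (fun z => (Q z).re) 0 R = (Q 0).re :=
      InnerProductSpace.HarmonicOnNhd.circleAverage_eq (f := fun z => (Q z).re) fun z _ =>
        AnalyticAt.harmonicAt_re (hQ.analyticAt z)
    rw [← h1]
    have h2 : Real.circleAverage (fun z => Real.posLog ‖F z‖ + 1) 0 R = T F R + 1 := by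
      rw [Real.circleAverage_fun_add, Real.circleAverage_const]
      · rfl
      · exact (cont_posLog hF (sub_sphere hR0.le hR1)).circleIntegrable'
      · exact continuousOn_const.circleIntegrable'
    rw [← h2]
    refine Real.circleAverage_mono ?_ ?_ fun z hz => ?_
    · exact (Complex.continuous_re.comp hQ.continuous).continuousOn.circleIntegrable'
    · exact ((cont_posLog hF (sub_sphere hR0.le hR1)).add continuousOn_const).circleIntegrable'
    · rw [habs] at hz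
      have h3 := abs_lt.1 (hQv z hz)
      linarith [h3.1]
  · have hzc : z ∈ closure (ball (0 : ℂ) R) := by
      rw [closure_ball (0 : ℂ) hR0.ne']
      exact mem_closedBall_zero_iff.2 hz
    have hE : Differentiable ℂ fun z => Complex.exp (-Q z) := hQ.neg.cexp
    have hnorm : ∀ x ∈ sphere (0 : ℂ) R, ‖Complex.exp (-Q x)‖ * max 1 ‖F x‖ ≤ 1 := by
      intro x hx
      have h3 := abs_lt.1 (hQv x hx)
      have h4 : Real.posLog ‖F x‖ ≤ (Q x).re := by linarith [h3.2]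
      rw [Real.posLog_eq_log_max_one (norm_nonneg _),
        Real.log_le_iff_le_exp (lt_of_lt_of_le one_pos (le_max_left _ _))] at h4
      rw [Complex.norm_exp, Complex.neg_re, Real.exp_neg, inv_mul_le_iff₀ (Real.exp_pos _), mul_one]
      exact h4
    constructor
    · refine Complex.norm_le_of_forall_mem_frontier_norm_le isBounded_ball
        hE.diffContOnCl (fun x hx => ?_) hzc
      rw [frontier_ball (0 : ℂ) hR0.ne'] at hx
      refine le_trans ?_ (hnorm x hx)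
      exact le_mul_of_one_le_right (norm_nonneg _) (le_max_left _ _)
    · refine Complex.norm_le_of_forall_mem_frontier_norm_le
        (f := fun z => F z * Complex.exp (-Q z)) isBounded_ball ?_ (fun x hx => ?_) hzc
      · refine DifferentiableOn.diffContOnCl ?_
        rw [closure_ball (0 : ℂ) hR0.ne']
        exact (hF.mono (closedBall_subset_ball hR1)).mul hE.differentiableOn
      · rw [frontier_ball (0 : ℂ) hR0.ne'] at hx
        refine le_trans ?_ (hnorm x hx)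
        rw [norm_mul, mul_comm]
        exact mul_le_mul_of_nonneg_left (le_max_right _ _) (norm_nonneg _)

end Pool.Agent.Y544.AD
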