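import Pool.Agent.Y544.AD.Sem

/-!
# The formula for the admissible functions
-/

set_option autoImplicit false

namespace Pool.Agent.Y544.AD

open FirstOrder FirstOrder.Language FirstOrder.Ring Pool.Agent.Y544.HD

/-- a relation between the variables which is first-order, uniformly in the ring -/
def Dfn (P : ∀ (M : Type) [CommRing M], (ℕ → M) → Prop) : Prop :=
  ∃ φ : Language.ring.Formula ℕ, ∀ (M : Type) [CommRing M] [CompatibleRing M] (v : ℕ → M),
    φ.Realize v ↔ P M v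

/-- a function of the variables given by a term, uniformly in the ring -/
def Tm (t : ∀ (M : Type) [CommRing M], (ℕ → M) → M) : Prop :=
  ∃ τ : Language.ring.Term ℕ, ∀ (M : Type) [CommRing M] [CompatibleRing M] (v : ℕ → M),
    τ.realize v = t M v

section calculus

variable {s t : ∀ (M : Type) [CommRing M], (ℕ → M) → M}
  {P Q : ∀ (M : Type) [CommRing M], (ℕ → M) → Prop}

theorem Tm.var (i : ℕ) : Tm fun _ _ v => v i := ⟨Term.var i, fun _ _ _ _ => rfl⟩

theorem Tm.one : Tm fun _ _ _ => 1 := ⟨1, fun _ _ _ _ => realize_one _⟩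

theorem Tm.add (hs : Tm s) (ht : Tm t) : Tm fun M _ v => s M v + t M v := by
  obtain ⟨σ, hσ⟩ := hs
  obtain ⟨τ, hτ⟩ := ht
  exact ⟨σ + τ, fun M _ _ v => by rw [realize_add, hσ, hτ]⟩

theorem Tm.mul (hs : Tm s) (ht : Tm t) : Tm fun M _ v => s M v * t M v := by
  obtain ⟨σ, hσ⟩ := hs
  obtain ⟨τ, hτ⟩ := ht
  exact ⟨σ * τ, fun M _ _ v => by rw [realize_mul, hσ, hτ]⟩

theorem Tm.sub (hs : Tm s) (ht : Tm t) : Tm fun M _ v => s M v - t M v := by
  obtain ⟨σ, hσ⟩ := hs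
  obtain ⟨τ, hτ⟩ := ht
  exact ⟨σ + -τ, fun M _ _ v => by
    rw [realize_add, realize_neg, hσ, hτ]
    exact (sub_eq_add_neg _ _).symm⟩

theorem Tm.comp (hs : Tm s) (g : ℕ → ℕ) : Tm fun M _ v => s M fun i => v (g i) := by
  obtain ⟨σ, hσ⟩ := hs
  exact ⟨σ.relabel g, fun M _ _ v => by rw [Term.realize_relabel, hσ]; rfl⟩

theorem Dfn.eq (hs : Tm s) (ht : Tm t) : Dfn fun M _ v => s M v = t M v := by
  obtain ⟨σ, hσ⟩ := hs
  obtain ⟨τ, hτ⟩ := ht
  exact ⟨σ.equal τ, fun M _ _ v => by rw [Formula.realize_equal, hσ, hτ]⟩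

theorem Dfn.not (h : Dfn P) : Dfn fun M _ v => ¬ P M v := by
  obtain ⟨φ, hφ⟩ := h
  exact ⟨φ.not, fun M _ _ v => by rw [Formula.realize_not, hφ]⟩

theorem Dfn.and (h : Dfn P) (h' : Dfn Q) : Dfn fun M _ v => P M v ∧ Q M v := by
  obtain ⟨φ, hφ⟩ := h
  obtain ⟨ψ, hψ⟩ := h'
  exact ⟨φ ⊓ ψ, fun M _ _ v => by rw [Formula.realize_inf, hφ, hψ]⟩

theorem Dfn.or (h : Dfn P) (h' : Dfn Q) : Dfn fun M _ v => P M v ∨ Q M v := by
  obtain ⟨φ, hφ⟩ := h
  obtain ⟨ψ, hψ⟩ := h'
  exact ⟨φ ⊔ ψ, fun M _ _ v => by rw [Formula.realize_sup, hφ, hψ]⟩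

theorem Dfn.imp (h : Dfn P) (h' : Dfn Q) : Dfn fun M _ v => (P M v → Q M v) := by
  obtain ⟨φ, hφ⟩ := h
  obtain ⟨ψ, hψ⟩ := h'
  exact ⟨φ.imp ψ, fun M _ _ v => by rw [Formula.realize_imp, hφ, hψ]⟩

theorem Dfn.ex {Q : ∀ (M : Type) [CommRing M], M → (ℕ → M) → Prop}
    (h : Dfn fun M _ v => Q M (v 0) fun i => v (i + 1)) : Dfn fun M _ v => ∃ a, Q M a v := by
  obtain ⟨φ, hφ⟩ := h
  refine ⟨BoundedFormula.ex (n := 0) (BoundedFormula.relabel (n := 1) (k := 0)
    (fun j : ℕ => Nat.casesOn j (Sum.inr (0 : Fin 1)) Sum.inl) φ), fun M _ _ v => ?_⟩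
  unfold Formula.Realize
  rw [BoundedFormula.realize_ex]
  refine exists_congr fun a => ?_
  rw [BoundedFormula.realize_relabel]
  have h1 : (Sum.elim v (Fin.snoc (default : Fin 0 → M) a ∘ Fin.castAdd 0) ∘
      fun j : ℕ => (Nat.casesOn j (Sum.inr (0 : Fin 1)) Sum.inl : ℕ ⊕ Fin 1)) =
      fun j : ℕ => (Nat.casesOn j a v : M) := by
    funext j
    rcases j with - | j
    · rfl
    · rfl
  rw [h1]
  have h2 := hφ M fun j : ℕ => (Nat.casesOn j a v : M)
  unfold Formula.Realize at h2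
  refine Iff.trans ?_ h2
  exact iff_of_eq (congrArg _ (Subsingleton.elim _ _))

theorem Dfn.congr (h : Dfn P) (h' : ∀ (M : Type) [CommRing M] (v : ℕ → M), P M v ↔ Q M v) :
    Dfn Q := by
  obtain ⟨φ, hφ⟩ := h
  exact ⟨φ, fun M _ _ v => by rw [hφ, h']⟩

theorem Dfn.all {Q : ∀ (M : Type) [CommRing M], M → (ℕ → M) → Prop}
    (h : Dfn fun M _ v => Q M (v 0) fun i => v (i + 1)) : Dfn fun M _ v => ∀ a, Q M a v :=
  (Dfn.ex (Q := fun M _ a v => ¬ Q M a v) h.not).not.congr fun M _ v => by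
    push Not
    rfl

end calculus

section preds

variable {s t a b : ∀ (M : Type) [CommRing M], (ℕ → M) → M}

theorem Tm.isU (hs : Tm s) : Dfn fun M _ v => IsU (s M v) := by
  unfold IsU
  exact .ex (.eq (.mul (hs.comp _) (.var 0)) .one)

theorem Tm.phi (hs : Tm s) (ht : Tm t) : Dfn fun M _ v => Phi (s M v) (t M v) := by
  unfold Phi
  refine .all (.imp (Tm.isU ?_) (.imp (Tm.isU ?_) (.ex (.ex (.and (.eq (.var _) ?_)
    (.and (Tm.isU ?_) (Tm.isU ?_)))))))
  · exact .add (.add .one .one) (.mul (.var _) (ht.comp _))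
  · exact .add .one (.mul (.var _) (ht.comp _))
  · exact .add (.mul (hs.comp _) (.var _)) (.mul (.var _) (ht.comp _))
  · exact .add (.add .one .one) (.mul (.var _) (ht.comp _))
  · exact .add .one (.mul (.var _) (ht.comp _))

theorem Tm.irr (hs : Tm s) : Dfn fun M _ v => Irr (s M v) := by
  unfold Irr
  exact .and hs.isU.not (.all (.all (.imp (.eq (hs.comp _) (.mul (.var _) (.var _)))
    (.or (Tm.var _).isU (Tm.var _).isU))))

theorem Tm.uni (hs : Tm s) : Dfn fun M _ v => Uni (s M v) := by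
  unfold Uni
  exact .ex (.and (.eq (.mul (hs.comp _) (.var _)) .one) (.all (.imp (Tm.var _).irr
    (.and ((hs.comp _).phi (.var _)) ((Tm.var _).phi (.var _))))))

theorem Tm.con (hs : Tm s) : Dfn fun M _ v => Con (s M v) := by
  unfold HD.Con
  exact .ex (.ex (.and (Tm.var _).uni (.and (Tm.var _).uni (.or
    (.eq (hs.comp _) (.add (.var _) (.var _)))
    (.eq (.mul (hs.comp _) (.add (.var _) (.var _))) .one)))))

theorem Tm.ub (hs : Tm s) : Dfn fun M _ v => UB (s M v) := by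
  unfold UB
  exact .all (.imp (Tm.var _).irr ((hs.comp _).phi (.var _)))

theorem Tm.sm (hs : Tm s) : Dfn fun M _ v => Sm (s M v) :=
  .and hs.con (.and hs.ub hs.uni.not)

theorem Tm.co (hs : Tm s) : Dfn fun M _ v => Co (s M v) := by
  unfold Co
  exact .all (.imp (Tm.var _).con (.and (.imp (Tm.var _).sm (Tm.sub (hs.comp _) (.var _)).irr)
    (.imp (Tm.var _).sm.not (Tm.sub (hs.comp _) (.var _)).isU)))

theorem Tm.ode (hs : Tm s) (ha : Tm a) (ht : Tm t) :
    Dfn fun M _ v => Ode (s M v) (a M v) (t M v) := by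
  unfold Ode
  refine .all (.imp (Tm.var _).sm (.ex (.ex (.ex (.and (Tm.var _).con (.and (Tm.var _).con
    (.and (.eq (ht.comp _) ?_) (.eq ?_ (.mul (ha.comp _) (.var _))))))))))
  · exact .add (.var _) (.mul (.sub (hs.comp _) (.var _)) (.add (.var _)
      (.mul (.sub (hs.comp _) (.var _)) (.var _))))
  · exact .mul (.var _) (.sub .one (.var _))

theorem Tm.maj (hs : Tm s) (ht : Tm t) (ha : Tm a) (hb : Tm b) :
    Dfn fun M _ v => Maj (s M v) (t M v) (a M v) (b M v) := by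
  unfold Maj
  refine .all (.imp (Tm.var _).con (.imp (Tm.var _).ub (.and (Tm.phi (hb.comp _) ?_)
    (Tm.phi (.mul (ht.comp _) (hb.comp _)) ?_))))
  · exact .sub (hs.comp _) (.mul (ha.comp _) (.var _))
  · exact .sub (hs.comp _) (.mul (ha.comp _) (.var _))

theorem Tm.cmp (hs : Tm s) (ht : Tm t) (ha : Tm a) (hb : Tm b) :
    Dfn fun M _ v => Cmp (s M v) (t M v) (a M v) (b M v) := by
  unfold Cmp
  refine .ex (.ex (.ex (.ex (.ex (.ex (.and (Tm.var _).uni (.and (Tm.var _).con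
    (.and (Tm.var _).con (.and (Tm.var _).ub (.and (.eq (ht.comp _) ?_)
      (.and (.eq (ha.comp _) ?_) (.eq (.var _) (.mul (.var _) (.var _)))))))))))))) 
  · exact .add (.var _) (.mul (hs.comp _) (.var _))
  · exact .add (.var _) (.mul (.sub (hs.comp _) (.mul (.var _) (hb.comp _))) (.var _))

theorem Tm.na (hs : Tm s) : Dfn fun M _ v => NA (s M v) := by
  unfold NA
  refine .ex (.ex (.ex (.ex (.and (Tm.var _).co (.and (Tm.var _).con
    (.and ((Tm.var _).ode (.var _) (.var _)) (.and (Tm.var _).sm ?_)))))))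
  refine .all (.imp (Tm.var _).sm (.imp ?_ (.ex (.ex (.and (.eq (.mul (.var _) (.var _)) .one)
    (.and ?_ ?_))))))
  · exact .ex (.and (Tm.var _).ub (.eq (.var _) (.mul (.var _) (.var _))))
  · exact Tm.maj (.var _) (hs.comp _) (.var _) (.var _)
  · exact Tm.cmp (.var _) (.var _) (.var _) (.var _)

end preds

/-- a formula with one free variable -/
theorem exists_formula : ∃ φ : Language.ring.Formula (Fin 1),
    ∀ (M : Type) [CommRing M] [CompatibleRing M] (f : M), φ.Realize (fun _ => f) ↔ ¬ NA f := by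
  obtain ⟨φ, hφ⟩ := (Tm.na (Tm.var 0)).not
  refine ⟨φ.relabel fun _ => 0, fun M _ _ f => ?_⟩
  rw [Formula.realize_relabel, hφ]
  rfl

/-- the isomorphic rings -/
theorem na_equiv {M N : Type} [CommRing M] [CommRing N] (e : M ≃+* N) (f : M) :
    NA (e f) ↔ NA f := by
  obtain ⟨φ, hφ⟩ := exists_formula
  let _ := compatibleRingOfRing M
  let _ := compatibleRingOfRing N
  have h1 := StrongHomClass.realize_formula (languageEquivEquivRingEquiv.symm e) φ
    (v := fun _ => f)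
  have h2 := hφ M f
  have h3 := hφ N (e f)
  have h4 : (⇑(languageEquivEquivRingEquiv.symm e) ∘ fun _ : Fin 1 => f) = fun _ => e f := rfl
  rw [h4] at h1
  rw [← not_iff_not, ← h2, ← h3]
  exact h1

end Pool.Agent.Y544.AD
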