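import Mathlib

/-!
# Harmonic functions on the unit disc: the inequality of Harnack, and the real parts of the entire
functions on a circle
-/

set_option autoImplicit false

namespace Pool.Agent.Y544.AD

open Metric Set Filter InnerProductSpace

/-- the inequality of Harnack -/
theorem harnack {v : ℂ → ℝ} {R : ℝ} {w : ℂ} (hv : HarmonicOnNhd v (closedBall 0 R))
    (hvc : ContinuousOn v (sphere (0 : ℂ) |R|))
    (hpos : ∀ z ∈ sphere (0 : ℂ) |R|, 0 ≤ v z) (hw : ‖w‖ < R) :
    (R - ‖w‖) / (R + ‖w‖) * Real.circleAverage v 0 R ≤ v w := by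
  have hR : 0 < R := lt_of_le_of_lt (norm_nonneg w) hw
  have hR' : |R| = R := abs_of_pos hR
  have hwb : w ∈ ball (0 : ℂ) R := mem_ball_zero_iff.2 hw
  rw [← hv.circleAverage_re_herglotzRieszKernel_smul hwb, ← smul_eq_mul,
    ← Real.circleAverage_smul]
  have hk : ContinuousOn ((Complex.re ∘ herglotzRieszKernel 0 w) • v) (sphere (0 : ℂ) |R|) :=
    (Complex.continuous_re.comp_continuousOn (continuousOn_herglotzRieszKernel_sphere hwb)).smul hvc
  refine Real.circleAverage_mono ?_ hk.circleIntegrable' ?_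
  · exact (hvc.const_smul _).circleIntegrable'
  · intro z hz
    have h1 := hpos z hz
    have h2 := le_re_herglotzRieszKernel (hR' ▸ hz : z ∈ sphere (0 : ℂ) R) hwb
    simp only [sub_zero] at h2
    simp only [Pi.smul_apply, smul_eq_mul, Pi.mul_apply, Function.comp_apply,
      herglotzRieszKernel_def, sub_zero]
    exact mul_le_mul_of_nonneg_right h2 h1

/-- the real parts of the entire functions are dense on a circle -/
theorem exists_entire {v : ℂ → ℝ} {R : ℝ} (hR : 0 < R) (hv : ContinuousOn v (sphere (0 : ℂ) R))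
    {ε : ℝ} (hε : 0 < ε) :
    ∃ Q : ℂ → ℂ, Differentiable ℂ Q ∧ ∀ z ∈ sphere (0 : ℂ) R, |v z - (Q z).re| < ε := by
  have : Fact ((0 : ℝ) < 2 * Real.pi) := ⟨Real.two_pi_pos⟩
  have hcirc : ∀ c : Circle, (R : ℂ) * (c : ℂ) ∈ sphere (0 : ℂ) R := by
    intro c
    rw [mem_sphere_zero_iff_norm, norm_mul, Circle.norm_coe, mul_one, Complex.norm_real,
      Real.norm_of_nonneg hR.le]
  let tc : AddCircle (2 * Real.pi) → Circle := AddCircle.toCircle
  have htc : Continuous tc := AddCircle.continuous_toCircle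
  let V : C(AddCircle (2 * Real.pi), ℂ) :=
    ⟨fun x => ((v (R * (tc x : ℂ)) : ℝ) : ℂ), by
      refine Complex.continuous_ofReal.comp ?_
      refine hv.comp_continuous ?_ fun x => hcirc _
      exact continuous_const.mul (continuous_subtype_val.comp htc)⟩
  have hdense : V ∈ (Submodule.span ℂ (range (@fourier (2 * Real.pi)))).topologicalClosure := by
    rw [span_fourier_closure_eq_top]
    trivial
  rw [← SetLike.mem_coe, Submodule.topologicalClosure_coe, Metric.mem_closure_iff] at hdense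
  obtain ⟨p, hp, hpV⟩ := hdense ε hε
  have hspan : ∀ p ∈ Submodule.span ℂ (range (@fourier (2 * Real.pi))),
      ∃ Q₁ Q₂ : ℂ → ℂ, Differentiable ℂ Q₁ ∧ Differentiable ℂ Q₂ ∧
        ∀ x, p x = Q₁ (R * (tc x : ℂ)) + (starRingEnd ℂ) (Q₂ (R * (tc x : ℂ))) := by
    intro p hp
    induction hp using Submodule.span_induction with
    | mem p h =>
      obtain ⟨n, rfl⟩ := h
      have hR0 : (R : ℂ) ≠ 0 := Complex.ofReal_ne_zero.2 hR.ne'
      have key : ∀ (m : ℕ) (x : AddCircle (2 * Real.pi)),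
          fourier (m : ℤ) x = (((R : ℂ) * (tc x : ℂ)) / R) ^ m := by
        intro m x
        rw [mul_div_cancel_left₀ _ hR0, fourier_apply]
        show ((AddCircle.toCircle ((m : ℤ) • x) : Circle) : ℂ) = _
        rw [AddCircle.toCircle_zsmul, zpow_natCast, Circle.coe_pow]
      obtain ⟨m, rfl | rfl⟩ := n.eq_nat_or_neg
      · refine ⟨fun z => (z / R) ^ m, fun _ => 0, (differentiable_id.div_const _).pow _,
          differentiable_const _, fun x => ?_⟩
        rw [key, map_zero, add_zero]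
      · refine ⟨fun _ => 0, fun z => (z / R) ^ m, differentiable_const _,
          (differentiable_id.div_const _).pow _, fun x => ?_⟩
        rw [fourier_neg, key, zero_add]
    | zero =>
      exact ⟨fun _ => 0, fun _ => 0, differentiable_const _, differentiable_const _,
        fun x => by simp⟩
    | add p q _ _ h1 h2 =>
      obtain ⟨P₁, P₂, hP₁, hP₂, hP⟩ := h1
      obtain ⟨Q₁, Q₂, hQ₁, hQ₂, hQ⟩ := h2
      refine ⟨fun z => P₁ z + Q₁ z, fun z => P₂ z + Q₂ z, hP₁.add hQ₁, hP₂.add hQ₂, fun x => ?_⟩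
      rw [ContinuousMap.add_apply, hP, hQ, map_add]
      ring
    | smul c p _ h1 =>
      obtain ⟨P₁, P₂, hP₁, hP₂, hP⟩ := h1
      refine ⟨fun z => c * P₁ z, fun z => (starRingEnd ℂ) c * P₂ z, hP₁.const_mul _,
        hP₂.const_mul _, fun x => ?_⟩
      rw [ContinuousMap.smul_apply, hP, map_mul, Complex.conj_conj, smul_eq_mul]
      ring
  obtain ⟨Q₁, Q₂, hQ₁, hQ₂, hQ⟩ := hspan p hp
  refine ⟨fun z => Q₁ z + Q₂ z, hQ₁.add hQ₂, fun z hz => ?_⟩
  obtain ⟨x, hx⟩ : ∃ x : AddCircle (2 * Real.pi), z = R * (tc x : ℂ) := by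
    refine ⟨((Complex.arg z : ℝ) : AddCircle (2 * Real.pi)), ?_⟩
    show z = R * ((AddCircle.toCircle ((Complex.arg z : ℝ) : AddCircle (2 * Real.pi)) : Circle) : ℂ)
    rw [AddCircle.toCircle_apply_mk, Circle.coe_exp, div_self Real.two_pi_pos.ne', one_mul,
      ← mem_sphere_zero_iff_norm.1 hz]
    exact (Complex.norm_mul_exp_arg_mul_I z).symm
  have h1 : dist (V x) (p x) < ε := lt_of_le_of_lt (ContinuousMap.dist_apply_le_dist x) hpV
  rw [Complex.dist_eq] at h1
  refine lt_of_le_of_lt ?_ h1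
  have h2 : v z - (Q₁ z + Q₂ z).re = (V x - p x).re := by
    rw [hQ, Complex.sub_re, Complex.add_re, Complex.add_re, Complex.conj_re, ← hx]
    show _ = (((v (R * (tc x : ℂ)) : ℝ) : ℂ)).re - _
    rw [Complex.ofReal_re, ← hx]
  rw [h2]
  exact Complex.abs_re_le_norm _

end Pool.Agent.Y544.AD
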