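import Pool.Agent.Y544.AD.Core
import Pool.Agent.Y544.HD.Ring

/-!
# The ring of the analytic functions on the unit disc: the admissible functions
-/

set_option autoImplicit false

namespace Pool.Agent.Y544.AD

open Metric Set Filter Pool.Agent.Y544.HD

section ring

variable {R : Type*} [CommRing R]

/-- For the ring of the analytic functions on the disc: `|f| ≤ 1` everywhere. -/
def UB (f : R) : Prop := ∀ p, Irr p → Phi f p

/-- a constant of modulus less than one -/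
def Sm (c : R) : Prop := Con c ∧ UB c ∧ ¬ Uni c

/-- an automorphism of the disc -/
def Co (u : R) : Prop := ∀ c, Con c → (Sm c → Irr (u - c)) ∧ (¬ Sm c → IsU (u - c))

/-- the differential equation `(1 - u) h' = a h`, the derivative with respect to `u` -/
def Ode (u a h : R) : Prop := ∀ x, Sm x → ∃ y d w, Con y ∧ Con d ∧
  h = y + (u - x) * (d + (u - x) * w) ∧ d * (1 - x) = a * y

/-- `|G| ≤ 1` and `|f G| ≤ 1` wherever `|u| ≤ |ρ|` -/
def Maj (u f ρ G : R) : Prop := ∀ t, Con t → UB t → Phi G (u - ρ * t) ∧ Phi (f * G) (u - ρ * t)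

/-- `|g| ≤ |h|`, at the zero of `u` and at a point where `|u| = |ρ|` -/
def Cmp (u g h ρ : R) : Prop := ∃ s y w z x t, Uni s ∧ Con y ∧ Con z ∧ UB t ∧
  g = y + u * w ∧ h = z + (u - s * ρ) * x ∧ y = z * t

/-- `f` is not admissible -/
def NA (f : R) : Prop := ∃ u a h r, Co u ∧ Con a ∧ Ode u a h ∧ Sm r ∧
  ∀ ρ, Sm ρ → (∃ t, UB t ∧ r = ρ * t) → ∃ G g, G * g = 1 ∧ Maj u f ρ G ∧ Cmp u g h ρ

theorem phi_mul_unit {f l v v' : R} (hv : v * v' = 1) (h : Phi f (l * v)) : Phi f l := by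
  intro B h1 h2
  have e1 : B * v' * (l * v) = B * l := by linear_combination (B * l) * hv
  obtain ⟨B', C, h3, h4, h5⟩ := h (B * v') (by rwa [e1]) (by rwa [e1])
  refine ⟨B' * v, C * v * v, ?_, ?_, ?_⟩
  · rw [h3]
    linear_combination (f * B) * hv
  · have e2 : B' * v * l = B' * (l * v) := by ring
    rwa [e2]
  · have e2 : B' * v * l = B' * (l * v) := by ring
    rwa [e2]

end ring

variable {S : Subring (ball (0 : ℂ) 1 → ℂ)}

theorem exists_const (hS : Hol S) (a : ℂ) : ∃ c : S, ∀ z, c.1 z = a :=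
  hS.mk (g := fun _ => a) (differentiableOn_const _)

theorem phi_iff (hS : Hol S) {p f u : S} {z₀ : ball (0 : ℂ) 1} (hu : IsU u)
    (hp : ∀ z : ball (0 : ℂ) 1, p.1 z = (z.1 - z₀.1) * u.1 z) : Phi f p ↔ ‖f.1 z₀‖ ≤ 1 := by
  constructor
  · intro h
    obtain ⟨l, hl⟩ := exists_lin hS z₀
    obtain ⟨v, hv⟩ := id hu
    have h1 : p = l * u := s_ext fun z => by
      rw [hp, ← hl]
      rfl
    rw [h1] at h
    exact le_of_phi hS hl (phi_mul_unit hv h)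
  · exact phi_of_le hS hu hp

theorem ub_iff (hS : Hol S) (f : S) : UB f ↔ ∀ z, ‖f.1 z‖ ≤ 1 := by
  constructor
  · intro h z
    obtain ⟨l, hl⟩ := exists_lin hS z
    exact le_of_phi hS hl (h l (irr_lin hS hl))
  · intro h p hp
    obtain ⟨z₀, u, hu, hpu⟩ := irr_form hS hp
    exact phi_of_le hS hu hpu (h _)

theorem sm_iff (hS : Hol S) (c : S) : Sm c ↔ ∃ a : ℂ, ‖a‖ < 1 ∧ ∀ z, c.1 z = a := by
  have h0 : (0 : ℂ) ∈ ball (0 : ℂ) 1 := mem_ball_self one_pos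
  constructor
  · rintro ⟨h1, h2, h3⟩
    obtain ⟨a, ha⟩ := (con_iff hS c).1 h1
    rw [ub_iff hS] at h2
    have h4 := h2 ⟨0, h0⟩
    rw [ha] at h4
    refine ⟨a, lt_of_le_of_ne h4 fun h => h3 ((uni_iff hS c).2 ⟨a, h, ha⟩), ha⟩
  · rintro ⟨a, ha, hc⟩
    refine ⟨(con_iff hS c).2 ⟨a, hc⟩, (ub_iff hS c).2 fun z => by rw [hc]; exact ha.le,
      fun h => ?_⟩
    obtain ⟨b, hb, hcb⟩ := (uni_iff hS c).1 h
    have h1 := hcb ⟨0, h0⟩
    rw [hc] at h1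
    rw [h1, hb] at ha
    exact lt_irrefl _ ha

theorem coe_sub' (x y : S) (z : ball (0 : ℂ) 1) : (x - y).1 z = x.1 z - y.1 z := rfl
theorem coe_add' (x y : S) (z : ball (0 : ℂ) 1) : (x + y).1 z = x.1 z + y.1 z := rfl
theorem coe_mul' (x y : S) (z : ball (0 : ℂ) 1) : (x * y).1 z = x.1 z * y.1 z := rfl
theorem coe_one' (z : ball (0 : ℂ) 1) : (1 : S).1 z = 1 := rfl

theorem val_congr {x y : S} (h : x = y) (z : ball (0 : ℂ) 1) : x.1 z = y.1 z := by rw [h]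

/-- the coordinates -/
theorem co_spec (hS : Hol S) {u : S} (hu : Co u) :
    (∀ z, ‖u.1 z‖ < 1) ∧
    (∀ c : ℂ, ‖c‖ < 1 → ∃ z, u.1 z = c) ∧
    ∀ (z : ball (0 : ℂ) 1) (p f : S), (∀ x, p.1 x = u.1 x - u.1 z) → Phi f p → ‖f.1 z‖ ≤ 1 := by
  have h1 : ∀ z, ‖u.1 z‖ < 1 := by
    intro z
    obtain ⟨c, hc⟩ := exists_const hS (u.1 z)
    by_contra hcon
    have h2 : ¬ Sm c := by
      intro h
      obtain ⟨a, ha, hca⟩ := (sm_iff hS c).1 h
      rw [← hca z, hc] at ha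
      exact hcon ha
    have h3 := (hu c ((con_iff hS c).2 ⟨_, hc⟩)).2 h2
    refine (isU_iff hS _).1 h3 z ?_
    rw [coe_sub', hc, sub_self]
  refine ⟨h1, fun c hc => ?_, fun z p f hp hf => ?_⟩
  · obtain ⟨k, hk⟩ := exists_const hS c
    have h3 := (hu k ((con_iff hS k).2 ⟨_, hk⟩)).1 ((sm_iff hS k).2 ⟨c, hc, hk⟩)
    obtain ⟨z₀, w, hw, hzw⟩ := irr_form hS h3
    refine ⟨z₀, ?_⟩
    have h4 := hzw z₀
    rw [coe_sub', hk, sub_self, zero_mul] at h4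
    exact sub_eq_zero.1 h4
  · obtain ⟨k, hk⟩ := exists_const hS (u.1 z)
    have h3 := (hu k ((con_iff hS k).2 ⟨_, hk⟩)).1 ((sm_iff hS k).2 ⟨_, h1 z, hk⟩)
    obtain ⟨z₀, w, hw, hzw⟩ := irr_form hS h3
    have h4 := hzw z
    rw [coe_sub', hk, sub_self] at h4
    have h5 : z = z₀ := by
      rcases mul_eq_zero.1 h4.symm with h | h
      · exact Subtype.ext (sub_eq_zero.1 h)
      · exact absurd h ((isU_iff hS w).1 hw z)
    have h6 : p = u - k := s_ext fun x => by rw [hp, coe_sub', hk]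
    rw [h6] at hf
    rw [h5]
    exact (phi_iff hS hw hzw).1 hf

/-- the equation for the derivatives -/
theorem ode_spec (hS : Hol S) {u a h : S} (hu : ∀ z, ‖u.1 z‖ < 1) {α : ℂ} (ha : ∀ z, a.1 z = α)
    (hode : Ode u a h) {U H : ℂ → ℂ} (hU : DifferentiableOn ℂ U (ball 0 1)) (hUu : ∀ z : ball (0 : ℂ) 1, u.1 z = U z)
    (hHh : ∀ z : ball (0 : ℂ) 1, h.1 z = H z) :
    ∀ z ∈ ball (0 : ℂ) 1, deriv H z * (1 - U z) = α * H z * deriv U z := by
  intro z hz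
  obtain ⟨k, hk⟩ := exists_const hS (U z)
  obtain ⟨y, d, w, hy, hd, h1, h2⟩ := hode k ((sm_iff hS k).2 ⟨U z, by
    rw [← hUu ⟨z, hz⟩]
    exact hu _, hk⟩)
  obtain ⟨yc, hyc⟩ := (con_iff hS y).1 hy
  obtain ⟨dc, hdc⟩ := (con_iff hS d).1 hd
  obtain ⟨W, hW, hWw⟩ := hS.ext w
  have hd' : ∀ {φ : ℂ → ℂ}, DifferentiableOn ℂ φ (ball 0 1) → HasDerivAt φ (deriv φ z) z :=
    fun hφ => ((hφ z hz).differentiableAt (isOpen_ball.mem_nhds hz)).hasDerivAt
  have h3 : H =ᶠ[nhds z] fun x => yc + (U x - U z) * (dc + (U x - U z) * W x) := by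
    filter_upwards [isOpen_ball.mem_nhds hz] with x hx
    have h4 := val_congr h1 ⟨x, hx⟩
    rw [coe_add', coe_mul', coe_add', coe_mul', coe_sub', hyc, hdc, hk, hUu, hWw, hHh] at h4
    exact h4
  have h4 : HasDerivAt (fun x => yc + (U x - U z) * (dc + (U x - U z) * W x))
      (deriv U z * dc) z := by
    have h5 := (hd' hU).sub_const (U z)
    have h6 := (h5.mul ((h5.mul (hd' hW)).const_add dc)).const_add yc
    simp only [sub_self, zero_mul, add_zero, Pi.mul_apply] at h6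
    exact h6
  have h5 : deriv H z = deriv U z * dc := h3.deriv_eq.trans h4.deriv
  have h6 : H z = yc := by
    have := h3.self_of_nhds
    simpa using this
  have h7 := val_congr h2 ⟨z, hz⟩
  rw [coe_mul', coe_mul', coe_sub', coe_one', hk, hdc, hyc, ha] at h7
  rw [h5, h6]
  linear_combination (deriv U z) * h7

theorem na_fwd (hS : Hol S) {f : S} {F : ℂ → ℂ} (hF : DifferentiableOn ℂ F (ball 0 1))
    (hf : ∀ z : ball (0 : ℂ) 1, f.1 z = F z) (h : NA f) :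
    Asymptotics.IsBigO (nhdsWithin (1 : ℝ) (Iio 1)) (T F) (fun r => Real.log (1 - r)⁻¹) := by
  obtain ⟨u, a, h, r, hu, ha, hode, hr, hmain⟩ := h
  obtain ⟨hu1, hu2, hu3⟩ := co_spec hS hu
  obtain ⟨U, hU, hUu⟩ := hS.ext u
  obtain ⟨H, hH, hHh⟩ := hS.ext h
  obtain ⟨α, hα⟩ := (con_iff hS a).1 ha
  obtain ⟨r₀, hr₀, hrr⟩ := (sm_iff hS r).1 hr
  obtain ⟨z₀, hz₀⟩ := hu2 0 (by simp)
  have h0 : (0 : ℂ) ∈ ball (0 : ℂ) 1 := mem_ball_self one_pos
  refine core_fwd hF hU hH (fun z hz => by rw [← hUu ⟨z, hz⟩]; exact hu1 _) z₀.2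
    (ode_spec hS hu1 hα hode hU hUu hHh) hr₀ fun ρ hρ1 hρ2 hρ3 => ?_
  obtain ⟨k, hk⟩ := exists_const hS (ρ : ℂ)
  have hρn : ‖(ρ : ℂ)‖ = ρ := by rw [Complex.norm_real, Real.norm_of_nonneg hρ2.le]
  have hρ0 : (ρ : ℂ) ≠ 0 := Complex.ofReal_ne_zero.2 hρ2.ne'
  obtain ⟨τ, hτ⟩ := exists_const hS (r₀ / ρ)
  obtain ⟨G, g, hGg, hmaj, s, y, w, z, x, t, hs, hy, hz, ht, h1, h2, h3⟩ :=
    hmain k ((sm_iff hS k).2 ⟨ρ, by rw [hρn]; exact hρ3, hk⟩) ⟨τ, (ub_iff hS τ).2 fun z => by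
      rw [hτ, norm_div, hρn, div_le_one hρ2]
      exact hρ1, s_ext fun z => by
      rw [hrr, coe_mul', hk, hτ]
      field_simp⟩
  have hGg' : ∀ x, G.1 x * g.1 x = 1 := fun x => val_congr hGg x
  obtain ⟨g', hg', hgg⟩ := hS.ext g
  obtain ⟨σ, hσ, hsσ⟩ := (uni_iff hS s).1 hs
  obtain ⟨yc, hyc⟩ := (con_iff hS y).1 hy
  obtain ⟨zc, hzc⟩ := (con_iff hS z).1 hz
  obtain ⟨z₁, hz₁⟩ := hu2 (σ * ρ) (by rw [norm_mul, hσ, hρn, one_mul]; exact hρ3)
  rw [ub_iff hS] at ht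
  refine ⟨g', hg', fun x hx hx0 => ?_, fun x hx hxρ => ?_, z₁.1, z₁.2, ?_, ?_⟩
  · have h4 := hGg' ⟨x, hx⟩
    rw [hgg, hx0, mul_zero] at h4
    exact zero_ne_one h4
  · obtain ⟨v, hv⟩ := exists_const hS (U x / ρ)
    have hv1 : Con v := (con_iff hS v).2 ⟨_, hv⟩
    have hv2 : UB v := (ub_iff hS v).2 fun z => by
      rw [hv, norm_div, hρn, div_le_one hρ2]
      exact hxρ
    obtain ⟨h4, h5⟩ := hmaj v hv1 hv2
    have hp : ∀ q : ball (0 : ℂ) 1, (u - k * v).1 q = u.1 q - u.1 ⟨x, hx⟩ := by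
      intro q
      rw [coe_sub', coe_mul', hk, hv, hUu ⟨x, hx⟩]
      field_simp
    have h6 := hu3 ⟨x, hx⟩ _ _ hp h4
    have h7 := hu3 ⟨x, hx⟩ _ _ hp h5
    rw [coe_mul', norm_mul, hf] at h7
    have h8 := hGg' ⟨x, hx⟩
    have h9 : ‖G.1 ⟨x, hx⟩‖ * ‖g' x‖ = 1 := by
      rw [← hgg ⟨x, hx⟩, ← norm_mul, h8, norm_one]
    have h10 := norm_nonneg (G.1 ⟨x, hx⟩)
    have h11 := norm_nonneg (g' x)
    have h12 : ‖F x‖ * ‖G.1 ⟨x, hx⟩‖ * ‖g' x‖ = ‖F x‖ := by rw [mul_assoc, h9, mul_one]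
    constructor
    · nlinarith
    · rw [← h12]
      exact mul_le_of_le_one_left h11 h7
  · rw [← hUu, hz₁, norm_mul, hσ, hρn, one_mul]
  · have h4 := val_congr h1 z₀
    rw [coe_add', coe_mul', hz₀, zero_mul, add_zero, hyc, hgg] at h4
    have h5 := val_congr h2 z₁
    rw [coe_add', coe_mul', coe_sub', coe_mul', hsσ, hk, hz₁, sub_self, zero_mul, add_zero, hzc,
      hHh] at h5
    have h6 := val_congr h3 z₁
    rw [coe_mul', hyc, hzc] at h6
    rw [h4, h5, h6, norm_mul]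
    exact mul_le_of_le_one_right (norm_nonneg _) (ht z₁)

theorem exists_id (hS : Hol S) : ∃ u : S, ∀ z : ball (0 : ℂ) 1, u.1 z = z :=
  hS.mk (g := fun x => x) differentiableOn_id

theorem co_id (hS : Hol S) {u : S} (hu : ∀ z : ball (0 : ℂ) 1, u.1 z = z) : Co u := by
  intro c hc
  obtain ⟨a, ha⟩ := (con_iff hS c).1 hc
  have h0 : (0 : ℂ) ∈ ball (0 : ℂ) 1 := mem_ball_self one_pos
  constructor
  · intro h
    obtain ⟨b, hb, hcb⟩ := (sm_iff hS c).1 h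
    exact irr_lin hS (z₀ := ⟨b, mem_ball_zero_iff.2 hb⟩) fun z => by rw [coe_sub', hu, hcb]
  · intro h
    rw [isU_iff hS]
    intro z hz
    rw [coe_sub', hu, ha, sub_eq_zero] at hz
    exact h ((sm_iff hS c).2 ⟨a, by rw [← hz]; exact mem_ball_zero_iff.1 z.2, ha⟩)

theorem na_bwd (hS : Hol S) {f : S} {F : ℂ → ℂ} (hF : DifferentiableOn ℂ F (ball 0 1))
    (hf : ∀ z : ball (0 : ℂ) 1, f.1 z = F z)
    (h : Asymptotics.IsBigO (nhdsWithin (1 : ℝ) (Iio 1)) (T F) (fun r => Real.log (1 - r)⁻¹)) :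
    NA f := by
  obtain ⟨C, hC⟩ := h.bound
  have he : 1 - Real.exp (-1) < 1 := by linarith [Real.exp_pos (-1)]
  obtain ⟨r₁, hr₁, hr₁'⟩ := (mem_nhdsLT_iff_exists_Ioo_subset' (show (0 : ℝ) < 1 by norm_num)).1 hC
  have hr₁1 : r₁ < 1 := hr₁
  -- the radius
  obtain ⟨r₀, hr₀, h01⟩ : ∃ r₀ : ℝ, r₀ < 1 ∧ max (max 0 r₁) (1 - Real.exp (-1)) < r₀ := by
    obtain ⟨r₀, h1, h2⟩ := exists_between (max_lt (max_lt one_pos hr₁1) he)
    exact ⟨r₀, h2, h1⟩
  have hr₀0 : 0 < r₀ := lt_of_le_of_lt ((le_max_left _ _).trans (le_max_left _ _)) h01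
  have hr₀1 : r₁ < r₀ := lt_of_le_of_lt ((le_max_right _ _).trans (le_max_left _ _)) h01
  have hr₀2 : 1 - Real.exp (-1) < r₀ := lt_of_le_of_lt (le_max_right _ _) h01
  obtain ⟨N, hN⟩ := exists_nat_ge (C + 1)
  obtain ⟨u, hu⟩ := exists_id hS
  obtain ⟨a, ha⟩ := exists_const hS (N : ℂ)
  obtain ⟨r, hr⟩ := exists_const hS (r₀ : ℂ)
  have hne : ∀ z ∈ ball (0 : ℂ) 1, (1 - z) ^ N ≠ 0 := by
    intro z hz
    refine pow_ne_zero _ fun h1 => ?_
    have h2 : z = 1 := (sub_eq_zero.1 h1).symm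
    rw [h2, mem_ball_zero_iff, norm_one] at hz
    exact lt_irrefl _ hz
  have hHd : DifferentiableOn ℂ (fun z : ℂ => ((1 - z) ^ N)⁻¹) (ball 0 1) := by
    refine DifferentiableOn.inv ?_ hne
    exact ((differentiable_id.const_sub 1).pow N).differentiableOn
  obtain ⟨h, hh⟩ := hS.mk hHd
  refine ⟨u, a, h, r, co_id hS hu, (con_iff hS a).2 ⟨_, ha⟩, ?_, ?_, ?_⟩
  · -- the differential equation
    intro x hx
    obtain ⟨b, hb, hxb⟩ := (sm_iff hS x).1 hx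
    have hbm : b ∈ ball (0 : ℂ) 1 := mem_ball_zero_iff.2 hb
    obtain ⟨y, hy⟩ := exists_const hS (((1 - b) ^ N)⁻¹)
    obtain ⟨q, hq⟩ := factor hS (h - y) ⟨b, hbm⟩ (by rw [coe_sub', hh, hy, sub_self])
    obtain ⟨d, hd⟩ := exists_const hS (q.1 ⟨b, hbm⟩)
    obtain ⟨w, hw⟩ := factor hS (q - d) ⟨b, hbm⟩ (by rw [coe_sub', hd, sub_self])
    refine ⟨y, d, w, (con_iff hS y).2 ⟨_, hy⟩, (con_iff hS d).2 ⟨_, hd⟩, s_ext fun z => ?_,
      s_ext fun z => ?_⟩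
    · rw [coe_add', coe_mul', coe_add', coe_mul', coe_sub', hu, hxb]
      have h1 := hq z
      have h2 := hw z
      rw [coe_sub'] at h1 h2
      rw [← h2]
      linear_combination h1
    · rw [coe_mul', coe_mul', coe_sub', coe_one', hd, hxb, ha, hy]
      -- the derivative
      obtain ⟨Q, hQ, hQq⟩ := hS.ext q
      have h1b : (1 - b) ≠ 0 := fun h1 => hne b hbm (by
        rw [h1]
        by_cases hN0 : N = 0
        · exfalso
          have h2 : b = 1 := (sub_eq_zero.1 h1).symm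
          rw [h2, norm_one] at hb
          exact lt_irrefl _ hb
        · exact zero_pow hN0)
      have h1 : (fun z : ℂ => ((1 - z) ^ N)⁻¹) =ᶠ[nhds b]
          fun z => ((1 - b) ^ N)⁻¹ + (z - b) * Q z := by
        filter_upwards [isOpen_ball.mem_nhds hbm] with z hz
        have h2 := hq ⟨z, hz⟩
        rw [coe_sub', hh, hy, hQq] at h2
        linear_combination h2
      have hQb : HasDerivAt Q (deriv Q b) b :=
        ((hQ b hbm).differentiableAt (isOpen_ball.mem_nhds hbm)).hasDerivAt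
      have h2 : HasDerivAt (fun z => ((1 - b) ^ N)⁻¹ + (z - b) * Q z) (Q b) b := by
        have h3 := (((hasDerivAt_id b).sub_const b).mul hQb).const_add (((1 - b) ^ N)⁻¹)
        simp only [id, sub_self, zero_mul, add_zero, one_mul, Pi.mul_apply] at h3
        exact h3
      have h3 : HasDerivAt (fun z : ℂ => ((1 - z) ^ N)⁻¹)
          (-(N * (1 - b) ^ (N - 1) * (-1)) / ((1 - b) ^ N) ^ 2) b := by
        have h4 : HasDerivAt (fun z : ℂ => (1 - z) ^ N) (N * (1 - b) ^ (N - 1) * (-1)) b :=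
          ((hasDerivAt_id b).const_sub 1).pow N
        exact h4.inv (pow_ne_zero _ h1b)
      have h4 := h3.unique (h2.congr_of_eventuallyEq h1)
      rw [hQq, ← h4]
      rcases N with - | n
      · simp
      · rw [Nat.add_sub_cancel]
        field_simp
        ring
  · exact (sm_iff hS r).2 ⟨r₀, by rw [Complex.norm_real, Real.norm_of_nonneg hr₀0.le]; exact hr₀,
      hr⟩
  · rintro ρ hρ ⟨t, ht, hrt⟩
    obtain ⟨c, hc, hρc⟩ := (sm_iff hS ρ).1 hρ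
    rw [ub_iff hS] at ht
    have h0 : (0 : ℂ) ∈ ball (0 : ℂ) 1 := mem_ball_self one_pos
    have hcr : r₀ ≤ ‖c‖ := by
      have h1 := val_congr hrt ⟨0, h0⟩
      rw [coe_mul', hr, hρc] at h1
      have h2 : r₀ = ‖c‖ * ‖t.1 ⟨0, h0⟩‖ := by
        rw [← norm_mul, ← h1, Complex.norm_real, Real.norm_of_nonneg hr₀0.le]
      rw [h2]
      exact mul_le_of_le_one_right (norm_nonneg _) (ht _)
    have hc0 : 0 < ‖c‖ := lt_of_lt_of_le hr₀0 hcr
    obtain ⟨Q, hQ, hQ0, hQF⟩ := core_bwd hF hc0 hc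
    obtain ⟨G, hG⟩ := hS.mk (g := fun z => Complex.exp (-Q z)) hQ.neg.cexp.differentiableOn
    obtain ⟨g, hg⟩ := hS.mk (g := fun z => Complex.exp (Q z)) hQ.cexp.differentiableOn
    refine ⟨G, g, s_ext fun z => ?_, fun v hv1 hv2 => ?_, ?_⟩
    · rw [coe_mul', hG, hg, coe_one', ← Complex.exp_add, neg_add_cancel, Complex.exp_zero]
    · obtain ⟨b, hb⟩ := (con_iff hS v).1 hv1
      rw [ub_iff hS] at hv2
      have hb1 : ‖b‖ ≤ 1 := by
        rw [← hb ⟨0, h0⟩]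
        exact hv2 _
      have hcb : ‖c * b‖ ≤ ‖c‖ := by
        rw [norm_mul]
        exact mul_le_of_le_one_right (norm_nonneg _) hb1
      have hcbm : c * b ∈ ball (0 : ℂ) 1 := mem_ball_zero_iff.2 (lt_of_le_of_lt hcb hc)
      have h1 : ∀ z : ball (0 : ℂ) 1, (u - ρ * v).1 z =
          (z.1 - (⟨c * b, hcbm⟩ : ball (0 : ℂ) 1).1) * (1 : S).1 z := by
        intro z
        rw [coe_sub', coe_mul', hu, hρc, hb, coe_one', mul_one]
      have h2 : IsU (1 : S) := ⟨1, mul_one 1⟩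
      rw [phi_iff hS h2 h1, phi_iff hS h2 h1, coe_mul', hG, hf]
      exact hQF _ hcb
    · -- the comparison
      have hn : ((‖c‖ : ℝ) : ℂ) ≠ 0 := Complex.ofReal_ne_zero.2 hc0.ne'
      have hcz : c ≠ 0 := norm_pos_iff.1 hc0
      have hnc : ‖((‖c‖ : ℝ) : ℂ)‖ = ‖c‖ := by
        rw [Complex.norm_real, Real.norm_of_nonneg (norm_nonneg _)]
      have hcm : ((‖c‖ : ℝ) : ℂ) ∈ ball (0 : ℂ) 1 := by
        rw [mem_ball_zero_iff, hnc]
        exact hc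
      obtain ⟨s, hs⟩ := exists_const hS (((‖c‖ : ℝ) : ℂ) / c)
      obtain ⟨y, hy⟩ := exists_const hS (Complex.exp (Q 0))
      obtain ⟨z, hz⟩ := exists_const hS (((1 - ((‖c‖ : ℝ) : ℂ)) ^ N)⁻¹)
      obtain ⟨t', ht'⟩ := exists_const hS (Complex.exp (Q 0) * (1 - ((‖c‖ : ℝ) : ℂ)) ^ N)
      obtain ⟨w, hw⟩ := factor hS (g - y) ⟨0, h0⟩ (by rw [coe_sub', hg, hy, sub_self])
      obtain ⟨x, hx⟩ := factor hS (h - z) ⟨_, hcm⟩ (by rw [coe_sub', hh, hz, sub_self])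
      refine ⟨s, y, w, z, x, t', (uni_iff hS s).2 ⟨_, ?_, hs⟩, (con_iff hS y).2 ⟨_, hy⟩,
        (con_iff hS z).2 ⟨_, hz⟩, (ub_iff hS t').2 fun q => ?_, s_ext fun q => ?_,
        s_ext fun q => ?_, s_ext fun q => ?_⟩
      · rw [norm_div, hnc, div_self hc0.ne']
      · rw [ht', norm_mul, Complex.norm_exp, norm_pow]
        have h1 : ‖1 - ((‖c‖ : ℝ) : ℂ)‖ = 1 - ‖c‖ := by
          rw [← Complex.ofReal_one, ← Complex.ofReal_sub, Complex.norm_real,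
            Real.norm_of_nonneg (by linarith)]
        rw [h1]
        have h2 : 0 < 1 - ‖c‖ := by linarith
        have h3 : 1 ≤ Real.log (1 - ‖c‖)⁻¹ := by
          rw [Real.log_inv, le_neg, Real.log_le_iff_le_exp h2]
          linarith
        have h4 : T F ‖c‖ ≤ C * Real.log (1 - ‖c‖)⁻¹ := by
          have h5 := hr₁' ⟨lt_of_lt_of_le hr₀1 hcr, hc⟩
          have h6 : ‖T F ‖c‖‖ ≤ C * ‖Real.log (1 - ‖c‖)⁻¹‖ := h5
          rwa [Real.norm_of_nonneg (T_nonneg _ _), Real.norm_of_nonneg (by linarith)] at h6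
        have h5 : (Q 0).re ≤ N * Real.log (1 - ‖c‖)⁻¹ := by
          have h6 : (C + 1) * Real.log (1 - ‖c‖)⁻¹ ≤ N * Real.log (1 - ‖c‖)⁻¹ :=
            mul_le_mul_of_nonneg_right hN (by linarith)
          linarith
        have h6 : Real.exp (Q 0).re ≤ ((1 - ‖c‖) ^ N)⁻¹ := by
          have h7 : ((1 - ‖c‖) ^ N)⁻¹ = Real.exp (N * Real.log (1 - ‖c‖)⁻¹) := by
            rw [Real.exp_nat_mul, Real.exp_log (inv_pos.2 h2), inv_pow]
          rw [h7]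
          exact Real.exp_le_exp.2 h5
        calc Real.exp (Q 0).re * (1 - ‖c‖) ^ N ≤ ((1 - ‖c‖) ^ N)⁻¹ * (1 - ‖c‖) ^ N :=
              mul_le_mul_of_nonneg_right h6 (pow_nonneg h2.le _)
          _ = 1 := inv_mul_cancel₀ (pow_ne_zero _ h2.ne')
      · rw [coe_add', coe_mul', hu]
        have h1 := hw q
        rw [coe_sub'] at h1
        linear_combination h1
      · rw [coe_add', coe_mul', coe_sub', coe_mul', hs, hρc, hu]
        have h1 := hx q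
        rw [coe_sub'] at h1
        have h2 : ((‖c‖ : ℝ) : ℂ) / c * c = ((‖c‖ : ℝ) : ℂ) := div_mul_cancel₀ _ hcz
        rw [h2]
        linear_combination h1
      · rw [coe_mul', hy, hz, ht']
        have h1 := hne _ hcm
        field_simp

theorem na_iff (hS : Hol S) {f : S} {F : ℂ → ℂ} (hF : DifferentiableOn ℂ F (ball 0 1))
    (hf : ∀ z : ball (0 : ℂ) 1, f.1 z = F z) : NA f ↔
    Asymptotics.IsBigO (nhdsWithin (1 : ℝ) (Iio 1)) (T F) (fun r => Real.log (1 - r)⁻¹) :=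
  ⟨na_fwd hS hF hf, na_bwd hS hF hf⟩

end Pool.Agent.Y544.AD
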